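import Pool.Agent.Helper462.OneRule.Comp
import Pool.Agent.Helper462.OneRule.CodeInj

set_option autoImplicit false

namespace Pool.Agent.Results.MP_f10232_lc.Undecidable

open Pool.Agent.Helper462.OneRule

/-- Termination of a single linear rewrite rule is undecidable. -/
theorem result :
    (∀ σ : List ℕ, Function.Injective (Term.code : Term σ → List ℕ)) ∧
    ¬ ∃ D : List ℕ × List ℕ × List ℕ → Bool, Computable D ∧
      ∀ (σ : List ℕ) (l r : Term σ), Term.IsRule l r → Term.Linear l → Term.Linear r →
        (D (σ, Term.code l, Term.code r) = true ↔ Term.Terminating l r) :=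
  ⟨fun _ => code_injective, undecidable⟩

end Pool.Agent.Results.MP_f10232_lc.Undecidable
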